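import Pool.Agent.H950.FK.St
import Pool.Graph.R_seed8.H984R3.Per.Extent

/-!
FK-T7: the interface as a path, from the potentials (T6).
-/

set_option autoImplicit false

namespace Pool.Agent.H139.FK

open H974 H984P H984N H342P Pool.Agent.H950.FK

variable {D : GD} {F : Finset Edg}

theorem not_Z {e : Edg} (hF : F ⊆ D.E) (he : e ∈ D.cfg F) : src e ∉ D.Z ∧ tgt e ∉ D.Z := by
  have hW : ∀ v : Vtx, v ∈ D.W → v ∉ D.Z := by
    intro v hv hz
    have h1 : v.1 ≤ D.w v.2 := hv
    have h2 : D.z v.2 ≤ v.1 := hz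
    have h3 := D.lt v.2
    omega
  rcases he with he | he
  · have h1 : e ∈ D.rnd := (D.mem_E).1 (hF (Finset.mem_coe.1 he))
    exact ⟨h1.1, h1.2.1⟩
  · exact ⟨hW _ he.1, hW _ he.2⟩

theorem clu_not_Z (hF : F ⊆ D.E) {v : Vtx} (hv : v ∈ D.clu F) : v ∉ D.Z := by
  obtain ⟨u, hu, h⟩ := hv
  have key : ∀ a b, Reach (D.cfg F) a b → a ∉ D.Z → b ∉ D.Z := by
    intro a b h
    induction h with
    | refl => exact id
    | tail _ hs ih =>
      intro _
      obtain ⟨e, he, h | h⟩ := hs
      · rw [← h.2]; exact (not_Z hF he).2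
      · rw [← h.1]; exact (not_Z hF he).1
  refine key _ _ h ?_
  intro hz
  have h1 : u.1 ≤ D.w u.2 := hu
  have h2 : D.z u.2 ≤ u.1 := hz
  have h3 := D.lt u.2
  omega

/-- A face of the free dual cluster has a corner which is not wired. -/
theorem dclu_cor {f : Vtx} (hf : f ∈ D.dclu F) : ∃ v, cor f v ∧ v ∉ D.W := by
  obtain ⟨g, ⟨v, hv, hc⟩, h⟩ := hf
  have key : ∀ a b, DReach (D.cfg F)ᶜ a b → (∃ v, cor a v ∧ v ∉ D.W) →
      ∃ v, cor b v ∧ v ∉ D.W := by
    intro a b h
    induction h with
    | refl => exact id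
    | tail _ hs ih =>
      intro _
      obtain ⟨e, he, h⟩ := hs
      have h1 : e ∉ D.We := fun h' => he (Or.inr h')
      have h2 : ∃ v, (v = src e ∨ v = tgt e) ∧ v ∉ D.W := by
        by_cases h3 : src e ∈ D.W
        · exact ⟨tgt e, Or.inr rfl, fun h4 => h1 ⟨h3, h4⟩⟩
        · exact ⟨src e, Or.inl rfl, h3⟩
      obtain ⟨v, hv, hvW⟩ := h2
      refine ⟨v, ?_, hvW⟩
      obtain ⟨x, y, o⟩ := e
      unfold cor
      rcases hv with rfl | rfl <;> rcases h with h | h <;> cases o <;>
        (first | rw [← h.2] | rw [← h.1]) <;> simp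
  refine key _ _ h ⟨v, hc, ?_⟩
  intro hw
  have h1 : v.1 ≤ D.w v.2 := hw
  have h2 : D.z v.2 ≤ v.1 := hv
  have h3 := D.lt v.2
  omega

theorem high (hF : F ⊆ D.E) {σ : St} (h1 : σ.1 ∈ D.clu F) (h2 : face σ ∈ D.dclu F)
    (h3 : D.hi < σ.1.2) : σ = ((D.w D.hi, σ.1.2), .ne) ∨ σ = ((D.w D.hi, σ.1.2), .se) := by
  have h4 := clu_not_Z hF h1
  have h5 : σ.1.1 < D.z σ.1.2 := not_le.1 h4
  have h6 := (D.top σ.1.2 h3.le).2
  obtain ⟨v, hc, hv⟩ := dclu_cor h2
  have h7 : D.w v.2 < v.1 := not_le.1 hv
  obtain ⟨⟨x, y⟩, q⟩ := σ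
  obtain ⟨vx, vy⟩ := v
  unfold cor at hc
  simp only at h3 h5 h6 h7 hc ⊢
  have h8 : D.hi ≤ vy := by
    cases q <;> simp only [face_ne, face_nw, face_sw, face_se] at hc <;> omega
  have h9 := (D.top vy h8).1
  cases q <;> simp only [face_ne, face_nw, face_sw, face_se] at hc
  · left
    have : x = D.w D.hi := by omega
    rw [this]
  · exfalso; omega
  · exfalso; omega
  · right
    have : x = D.w D.hi := by omega
    rw [this]

theorem low (hF : F ⊆ D.E) {σ : St} (h1 : σ.1 ∈ D.clu F) (h2 : face σ ∈ D.dclu F)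
    (h3 : σ.1.2 < D.lo) : σ = ((D.w D.lo, σ.1.2), .ne) ∨ σ = ((D.w D.lo, σ.1.2), .se) := by
  have h4 := clu_not_Z hF h1
  have h5 : σ.1.1 < D.z σ.1.2 := not_le.1 h4
  have h6 := (D.bot σ.1.2 h3.le).2
  obtain ⟨v, hc, hv⟩ := dclu_cor h2
  have h7 : D.w v.2 < v.1 := not_le.1 hv
  obtain ⟨⟨x, y⟩, q⟩ := σ
  obtain ⟨vx, vy⟩ := v
  unfold cor at hc
  simp only at h3 h5 h6 h7 hc ⊢
  have h8 : vy ≤ D.lo := by
    cases q <;> simp only [face_ne, face_nw, face_sw, face_se] at hc <;> omega
  have h9 := (D.bot vy h8).1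
  cases q <;> simp only [face_ne, face_nw, face_sw, face_se] at hc
  · left
    have : x = D.w D.lo := by omega
    rw [this]
  · exfalso; omega
  · exfalso; omega
  · right
    have : x = D.w D.lo := by omega
    rw [this]

/-- One step to the right of a column of wired vertices whose right neighbours are free. -/
theorem nxt_ne (hF : F ⊆ D.E) {x y : ℤ} (h : D.z y = x + 1) :
    nxt (D.cfg F) ((x, y), .ne) = ((x, y), .se) := by
  have h1 : ae ((x, y), .ne) ∉ D.cfg F := by
    intro h1
    apply (not_Z hF h1).2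
    show D.z (tgt (ae ((x, y), Q4.ne))).2 ≤ (tgt (ae ((x, y), Q4.ne))).1
    simp [h]
  rw [nxt_closed h1]
  rfl

theorem nxt_se {x y : ℤ} (h1 : x ≤ D.w y) (h2 : x ≤ D.w (y - 1)) :
    nxt (D.cfg F) ((x, y), .se) = ((x, y - 1), .ne) := by
  have h3 : ae ((x, y), .se) ∈ D.cfg F := by
    refine Or.inr ⟨?_, ?_⟩
    · show (src (ae ((x, y), Q4.se))).1 ≤ D.w (src (ae ((x, y), Q4.se))).2
      simpa using h2
    · show (tgt (ae ((x, y), Q4.se))).1 ≤ D.w (tgt (ae ((x, y), Q4.se))).2
      simpa using h1
  rw [nxt_open h3]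
  rfl

theorem orb_stop (hF : F ⊆ D.E) (j : ℕ) :
    orb (D.cfg F) D.stop (2 * j) = ((D.w D.lo, D.lo - j), .se) ∧
    orb (D.cfg F) D.stop (2 * j + 1) = ((D.w D.lo, D.lo - (j + 1)), .ne) := by
  have key : ∀ j : ℕ, orb (D.cfg F) D.stop (2 * j) = ((D.w D.lo, D.lo - j), .se) →
      orb (D.cfg F) D.stop (2 * j + 1) = ((D.w D.lo, D.lo - (j + 1)), .ne) := by
    intro j h
    rw [orb_succ, h, nxt_se]
    · rw [sub_sub]
    · exact (D.bot _ (by omega)).1.ge
    · exact (D.bot _ (by omega)).1.ge
  induction j with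
  | zero =>
    have h0 : orb (D.cfg F) D.stop (2 * 0) = ((D.w D.lo, D.lo - ((0 : ℕ) : ℤ)), .se) := by
      simp [GD.stop]
    exact ⟨h0, key 0 h0⟩
  | succ j ih =>
    have h0 : orb (D.cfg F) D.stop (2 * (j + 1)) =
        ((D.w D.lo, D.lo - ((j + 1 : ℕ) : ℤ)), .se) := by
      rw [show 2 * (j + 1) = (2 * j + 1) + 1 by ring, orb_succ, ih.2, nxt_ne hF]
      · push_cast
        rfl
      · exact (D.bot _ (by omega)).2
    exact ⟨h0, key (j + 1) h0⟩

theorem orb_stop_row (hF : F ⊆ D.E) (j : ℕ) : (orb (D.cfg F) D.stop j).1.2 ≤ D.lo ∧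
    (1 ≤ j → (orb (D.cfg F) D.stop j).1.2 < D.lo) := by
  obtain ⟨m, rfl | rfl⟩ := Nat.even_or_odd' j
  · rw [(orb_stop hF m).1]
    simp only
    omega
  · rw [(orb_stop hF m).2]
    simp only
    omega

theorem orb_succ' (C : Set Edg) (σ : St) (s : ℕ) : orb C σ (s + 1) = orb C (nxt C σ) s :=
  Function.iterate_succ_apply _ _ _

theorem back (hF : F ⊆ D.E) (j : ℕ) :
    orb (D.cfg F) ((D.w D.hi, D.hi + j), .ne) (2 * j) = D.start ∧
    orb (D.cfg F) ((D.w D.hi, D.hi + (j + 1)), .se) (2 * j + 1) = D.start := by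
  have key : ∀ j : ℕ, orb (D.cfg F) ((D.w D.hi, D.hi + j), .ne) (2 * j) = D.start →
      orb (D.cfg F) ((D.w D.hi, D.hi + (j + 1)), .se) (2 * j + 1) = D.start := by
    intro j h
    rw [orb_succ', nxt_se, ← h]
    · congr 3
      ring
    · exact (D.top _ (by omega)).1.ge
    · exact (D.top _ (by omega)).1.ge
  induction j with
  | zero =>
    have h0 : orb (D.cfg F) ((D.w D.hi, D.hi + ((0 : ℕ) : ℤ)), .ne) (2 * 0) = D.start := by
      simp [GD.start]
    exact ⟨h0, key 0 h0⟩
  | succ j ih =>
    have h0 : orb (D.cfg F) ((D.w D.hi, D.hi + ((j + 1 : ℕ) : ℤ)), .ne) (2 * (j + 1)) =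
        D.start := by
      rw [show 2 * (j + 1) = (2 * j + 1) + 1 by ring, orb_succ', nxt_ne hF, ← ih.2]
      · push_cast
        rfl
      · exact (D.top _ (by omega)).2
    exact ⟨h0, key (j + 1) h0⟩

theorem iter_inj {C : Set Edg} {a b : St} (s : ℕ) (h : orb C a s = orb C b s) : a = b :=
  (nxt_bij C).1.iterate s h

theorem walk_mem (k : ℕ) : (D.walk F k).1 ∈ D.clu F ∧ face (D.walk F k) ∈ D.dclu F := by
  have h0 : D.start.1 ∈ D.W := by
    show D.w D.hi ≤ D.w D.hi
    exact le_refl _
  constructor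
  · exact ⟨D.start.1, h0, H984P.P17.orb_vertex k⟩
  · refine ⟨face D.start, ⟨(D.w D.hi + 1, D.hi), ?_, ?_⟩, ?_⟩
    · show D.z D.hi ≤ D.w D.hi + 1
      exact (D.top D.hi (le_refl _)).2.le
    · unfold GD.start cor
      simp
    · have h := orb_dreach (F := D.cfg F) (W := Set.univ) (σ := D.start) (T := k)
        (fun _ _ => Set.mem_univ _) le_rfl
      exact h.mono fun e he => he.2

theorem t_path (h : S_pot) : S_path := by
  intro D F hF
  obtain ⟨hv, hf, hpot, hclu, hdclu⟩ := h D F hF
  have hline : ∀ σ : St, σ.1 ∈ D.clu F → face σ ∈ D.dclu F → σ ∈ line D F := by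
    intro σ h1 h2
    rw [hpot, hclu _ h1, hdclu _ h2, zero_add]
  -- the last state
  have hstop : ∃ k, D.walk F k = D.stop := by
    have h1 : D.stop.1 ∈ D.clu F := ⟨D.stop.1, le_refl (D.w D.lo), Reach.refl _ _⟩
    have h2 : face D.stop ∈ D.dclu F := by
      refine ⟨face D.stop, ⟨(D.w D.lo + 1, D.lo - 1), ?_, ?_⟩, DReach.refl _ _⟩
      · show D.z (D.lo - 1) ≤ D.w D.lo + 1
        exact (D.bot (D.lo - 1) (by omega)).2.le
      · unfold GD.stop cor
        simp
    obtain ⟨s, t, hst⟩ := hline _ h1 h2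
    rcases le_total s t with hle | hle
    · refine ⟨t - s, ?_⟩
      apply iter_inj (C := D.cfg F) s
      have e : orb (D.cfg F) (D.walk F (t - s)) s = orb (D.cfg F) D.start t := by
        unfold GD.walk
        rw [← orb_add]
        congr 1
        omega
      rw [e, hst]
    · exfalso
      have e : orb (D.cfg F) D.stop (s - t) = D.start := by
        apply iter_inj (C := D.cfg F) t
        rw [← orb_add, ← hst]
        congr 1
        omega
      have h3 := (orb_stop_row hF (s - t)).1
      rw [e] at h3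
      have h4 : D.start.1.2 = D.hi := rfl
      have := D.lohi
      omega
  refine ⟨hstop, ?_⟩
  have hlen : D.walk F (D.len F) = D.stop := Nat.sInf_mem (s := {k | D.walk F k = D.stop}) hstop
  -- the orbit of the first state is not periodic
  have hper : ∀ p, 1 ≤ p → orb (D.cfg F) D.start p ≠ D.start := by
    intro p hp hpp
    have hm : ∀ m : ℕ, orb (D.cfg F) D.start (p * m) = D.start := by
      intro m
      induction m with
      | zero => rfl
      | succ m ih => rw [Nat.mul_succ, orb_add, hpp, ih]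
    have h1 := hm (D.len F)
    have h2 : D.len F ≤ p * D.len F := Nat.le_mul_of_pos_left _ hp
    have h3 : orb (D.cfg F) D.stop (p * D.len F - D.len F) = D.start := by
      rw [← hlen]
      unfold GD.walk
      rw [← orb_add, ← h1]
      congr 1
      omega
    have h4 := (orb_stop_row hF (p * D.len F - D.len F)).1
    rw [h3] at h4
    have h5 : D.start.1.2 = D.hi := rfl
    have := D.lohi
    omega
  intro σ
  constructor
  · rintro ⟨h1, h2, h3, h4⟩
    obtain ⟨s, t, hst⟩ := hline _ h1 h2
    rcases le_total s t with hle | hle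
    · have e : D.walk F (t - s) = σ := by
        apply iter_inj (C := D.cfg F) s
        have e : orb (D.cfg F) (D.walk F (t - s)) s = orb (D.cfg F) D.start t := by
          unfold GD.walk
          rw [← orb_add]
          congr 1
          omega
        rw [e, hst]
      refine ⟨t - s, ?_, e⟩
      by_contra hcon
      push Not at hcon
      have e2 : orb (D.cfg F) D.stop (t - s - D.len F) = σ := by
        rw [← hlen, ← e]
        unfold GD.walk
        rw [← orb_add]
        congr 1
        omega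
      have h5 := (orb_stop_row hF (t - s - D.len F)).2 (by omega)
      rw [e2] at h5
      omega
    · have e : orb (D.cfg F) σ (s - t) = D.start := by
        apply iter_inj (C := D.cfg F) t
        rw [← orb_add, ← hst]
        congr 1
        omega
      by_cases h0 : s - t = 0
      · rw [h0] at e
        exact ⟨0, Nat.zero_le _, e.symm⟩
      · exfalso
        -- `σ` is strictly before `start`
        obtain ⟨m, hm | hm⟩ := Nat.even_or_odd' (s - t)
        · have h5 : σ = ((D.w D.hi, D.hi + m), .ne) := by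
            apply iter_inj (C := D.cfg F) (s - t)
            rw [e, hm, (back hF m).1]
          rw [h5] at h4
          simp only at h4
          omega
        · have h5 : σ = ((D.w D.hi, D.hi + (m + 1)), .se) := by
            apply iter_inj (C := D.cfg F) (s - t)
            rw [e, hm, (back hF m).2]
          rw [h5] at h4
          simp only at h4
          omega
  · rintro ⟨k, hk, rfl⟩
    obtain ⟨h1, h2⟩ := walk_mem (D := D) (F := F) k
    refine ⟨h1, h2, ?_, ?_⟩
    · by_contra hcon
      push Not at hcon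
      have key : ∀ j : ℕ, 1 ≤ j → D.walk F k = orb (D.cfg F) D.stop j → False := by
        intro j hj he
        apply hper (D.len F + j - k) (by omega)
        apply iter_inj (C := D.cfg F) k
        rw [← orb_add]
        have e1 : orb (D.cfg F) D.stop j = orb (D.cfg F) D.start (j + D.len F) := by
          rw [← hlen]
          unfold GD.walk
          rw [← orb_add]
        have e2 : k + (D.len F + j - k) = j + D.len F := by omega
        rw [e2, ← e1, ← he]
        rfl
      rcases low hF h1 h2 hcon with he | he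
      · have e3 := (orb_stop hF (D.lo - (D.walk F k).1.2 - 1).toNat).2
        refine key (2 * (D.lo - (D.walk F k).1.2 - 1).toNat + 1) (by omega) ?_
        rw [e3]
        refine he.trans ?_
        congr 2
        omega
      · have e3 := (orb_stop hF (D.lo - (D.walk F k).1.2).toNat).1
        refine key (2 * (D.lo - (D.walk F k).1.2).toNat) (by omega) ?_
        rw [e3]
        refine he.trans ?_
        congr 2
        omega
    · by_contra hcon
      push Not at hcon
      have key : ∀ j : ℕ, 1 ≤ j → orb (D.cfg F) (D.walk F k) j = D.start → False := by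
        intro j hj he
        apply hper (j + k) (by omega)
        rw [orb_add]
        exact he
      rcases high hF h1 h2 hcon with he | he
      · have e3 := (back hF ((D.walk F k).1.2 - D.hi).toNat).1
        refine key (2 * ((D.walk F k).1.2 - D.hi).toNat) (by omega) ?_
        refine Eq.trans ?_ e3
        congr 1
        refine he.trans ?_
        congr 2
        omega
      · have e3 := (back hF ((D.walk F k).1.2 - D.hi - 1).toNat).2
        refine key (2 * ((D.walk F k).1.2 - D.hi - 1).toNat + 1) (by omega) ?_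
        refine Eq.trans ?_ e3
        congr 1
        refine he.trans ?_
        congr 2
        omega

end Pool.Agent.H139.FK
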